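import Pool.Agent.MP_5ec4a4_an.Main

set_option autoImplicit false

open scoped InnerProductSpace ENNReal

namespace Pool.Agent.Results.MP_5ec4a4_an.Disproof

open Pool.Agent.MP_5ec4a4_an

/-- On every separable infinite-dimensional complex Hilbert space there is an operator `T`
generating a type `II₁` factor and an `ε > 0` such that no perturbation `T + K` with
`‖K‖₁ < ε` is a countable direct sum of irreducibles. -/
theorem result {H : Type*} [NormedAddCommGroup H] [InnerProductSpace ℂ H] [CompleteSpace H]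
    [TopologicalSpace.SeparableSpace H] (hH : ¬ FiniteDimensional ℂ H) :
    ∃ T : H →L[ℂ] H, IsTypeIIOneFactor (WStar T) ∧
      ∃ ε : ℝ, 0 < ε ∧ ∀ (K : H →L[ℂ] H) (ι : Type) (b : HilbertBasis ι ℂ H),
        traceNorm b K < ENNReal.ofReal ε → ¬ IsDirectSumOfIrreducibles (T + K) := by
  obtain ⟨b⟩ := exists_free_basis hH
  obtain ⟨T, hT, ε, hε, h⟩ := main_basis b
  exact ⟨T, hT, ε, hε, fun K ι c hK => h K (isNuc_of_traceNorm_lt c K ε hK)⟩

end Pool.Agent.Results.MP_5ec4a4_an.Disproof
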